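import Mathlib
import Pool.Agent.H16.BW.ProdFP
import Pool.Agent.H16.BW.IntFP
import Pool.Agent.H16.BW.ProdPres
import Pool.Agent.H16.BW.AmalFP

/-!
Finitely presented groups of type FP are closed under products and amalgamated products.
-/

set_option autoImplicit false

namespace Pool.Agent.H16.BV

open Function

theorem FPres.prod {G K : Type} [Group G] [Group K] (hG : FPres G) (hK : FPres K) :
    FPres (G × K) := by
  have := hG.1
  have := hK.1
  exact ⟨pres_prod, fp_prod hG.2 hK.2⟩

theorem FPres.int : FPres (Multiplicative ℤ) := ⟨inferInstance, fp_int⟩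

section

variable {Y A B : Type} [Group Y] [Group A] [Group B] (i : Y →* A) (j : Y →* B)

/-- The groups of the square. -/
def Fam (A B : Type) : Bool → Type
  | false => A
  | true => B

instance (b : Bool) : Group (Fam A B b) :=
  match b with
  | false => inferInstanceAs (Group A)
  | true => inferInstanceAs (Group B)

/-- The homomorphisms of the square. -/
def famHom : ∀ b, Y →* Fam A B b
  | false => i
  | true => j

/-- The maps to a group with the universal property of the amalgamated product are injective. -/
theorem inj_of_univ (hi : Injective i) (hj : Injective j) {Q : Type} [Group Q] (k₁ : A →* Q)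
    (k₂ : B →* Q)
    (huniv : ∀ (M : Type) [Group M] (a : A →* M) (b : B →* M), a.comp i = b.comp j →
      ∃ f : Q →* M, f.comp k₁ = a ∧ f.comp k₂ = b) : Injective k₁ ∧ Injective k₂ := by
  have hφ : ∀ b, Injective (famHom i j b) := by
    intro b
    cases b
    · exact hi
    · exact hj
  let a : A →* Monoid.PushoutI (famHom i j) := Monoid.PushoutI.of (φ := famHom i j) false
  let b : B →* Monoid.PushoutI (famHom i j) := Monoid.PushoutI.of (φ := famHom i j) true
  have ha : Injective a := Monoid.PushoutI.of_injective hφ false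
  have hb : Injective b := Monoid.PushoutI.of_injective hφ true
  have hab : a.comp i = b.comp j :=
    (Monoid.PushoutI.of_comp_eq_base (φ := famHom i j) false).trans
      (Monoid.PushoutI.of_comp_eq_base (φ := famHom i j) true).symm
  obtain ⟨f, h1, h2⟩ := huniv _ a b hab
  constructor
  · intro x y hxy
    refine ha ?_
    rw [← h1]
    exact congrArg f hxy
  · intro x y hxy
    refine hb ?_
    rw [← h2]
    exact congrArg f hxy

/-- The relations of the amalgamated product. -/
abbrev amRel : Subgroup (Monoid.Coprod A B) :=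
  Subgroup.normalClosure (Set.range fun y : Y =>
    (Monoid.Coprod.inl (i y) : Monoid.Coprod A B) * (Monoid.Coprod.inr (j y))⁻¹)

theorem FPres.amal (hi : Injective i) (hj : Injective j) (hY : FPres Y) (hA : FPres A)
    (hB : FPres B) : FPres (Monoid.Coprod A B ⧸ amRel i j) := by
  have := hY.1
  have := hA.1
  have := hB.1
  let p : Monoid.Coprod A B →* Monoid.Coprod A B ⧸ amRel i j := QuotientGroup.mk' (amRel i j)
  have huniv : ∀ (M : Type) [Group M] (a : A →* M) (b : B →* M), a.comp i = b.comp j →
      ∃ f : (Monoid.Coprod A B ⧸ amRel i j) →* M, f.comp (p.comp Monoid.Coprod.inl) = a ∧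
        f.comp (p.comp Monoid.Coprod.inr) = b := by
    intro M _ a b hab
    have hle : amRel i j ≤ (Monoid.Coprod.lift a b).ker := by
      refine Subgroup.normalClosure_le_normal ?_
      rintro _ ⟨y, rfl⟩
      rw [SetLike.mem_coe, MonoidHom.mem_ker, map_mul, map_inv, Monoid.Coprod.lift_apply_inl,
        Monoid.Coprod.lift_apply_inr, mul_inv_eq_one]
      exact DFunLike.congr_fun hab y
    refine ⟨QuotientGroup.lift (amRel i j) (Monoid.Coprod.lift a b) hle, ?_, ?_⟩
    · exact MonoidHom.ext fun x => Monoid.Coprod.lift_apply_inl a b x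
    · exact MonoidHom.ext fun x => Monoid.Coprod.lift_apply_inr a b x
  have hk : (p.comp Monoid.Coprod.inl).comp i = (p.comp Monoid.Coprod.inr).comp j := by
    refine MonoidHom.ext fun y => ?_
    change (QuotientGroup.mk' (amRel i j)) (Monoid.Coprod.inl (i y)) =
      (QuotientGroup.mk' (amRel i j)) (Monoid.Coprod.inr (j y))
    rw [QuotientGroup.mk'_apply, QuotientGroup.mk'_apply, QuotientGroup.eq]
    have h1 : (Monoid.Coprod.inl (i y) : Monoid.Coprod A B) *
        (Monoid.Coprod.inr (j y))⁻¹ ∈ amRel i j :=
      Subgroup.subset_normalClosure ⟨y, rfl⟩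
    have h2 := (inferInstance : (amRel i j).Normal).conj_mem _ ((amRel i j).inv_mem h1)
      (Monoid.Coprod.inl (i y))⁻¹
    simpa [mul_assoc] using h2
  have hgen : (p.comp Monoid.Coprod.inl).range ⊔ (p.comp Monoid.Coprod.inr).range = ⊤ := by
    rw [MonoidHom.range_comp, MonoidHom.range_comp, ← Subgroup.map_sup,
      Monoid.Coprod.range_inl_sup_range_inr, ← MonoidHom.range_eq_map,
      MonoidHom.range_eq_top]
    exact QuotientGroup.mk'_surjective _
  obtain ⟨h₁, h₂⟩ := inj_of_univ i j hi hj _ _ huniv
  exact ⟨pres_amal i j, fp_amal i j _ _ hk hgen huniv hi h₁ h₂ hY.2 hA.2 hB.2⟩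

end

end Pool.Agent.H16.BV
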