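import Mathlib

/-!
Homology isomorphisms of groups and acyclic groups.
-/

set_option autoImplicit false

namespace Pool.Agent.H16.BV

open CategoryTheory Function

/-- The map induced by a homomorphism in homology with trivial integer coefficients. -/
noncomputable def hmap {G K : Type} [Group G] [Group K] (f : G →* K) (n : ℕ) :
    groupHomology (Rep.trivial ℤ G ℤ) n ⟶ groupHomology (Rep.trivial ℤ K ℤ) n :=
  groupHomology.map f (B := Rep.trivial ℤ K ℤ) (𝟙 (Rep.trivial ℤ G ℤ)) n

/-- `f` induces isomorphisms in integral homology. -/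
def HEqv {G K : Type} [Group G] [Group K] (f : G →* K) : Prop :=
  ∀ n, Bijective (hmap f n).hom

/-- The integral homology of `G` vanishes in positive degrees. -/
def AcyclicGrp (G : Type) [Group G] : Prop :=
  ∀ n, 0 < n → Subsingleton (groupHomology (Rep.trivial ℤ G ℤ) n)

theorem hmap_comp {G H K : Type} [Group G] [Group H] [Group K] (f : G →* H) (g : H →* K) (n : ℕ) :
    hmap (g.comp f) n = hmap f n ≫ hmap g n := by
  unfold hmap
  rw [← groupHomology.map_comp]
  refine groupHomology.map_congr rfl ?_ n
  rfl

theorem hmap_id {G : Type} [Group G] (n : ℕ) :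
    hmap (MonoidHom.id G) n = 𝟙 _ :=
  groupHomology.map_id _

theorem HEqv.of_comp_right {G H K : Type} [Group G] [Group H] [Group K] (f : G →* H)
    (g : H →* K) (hg : HEqv g) (hgf : HEqv (g.comp f)) : HEqv f := by
  intro n
  have h1 : Bijective ((hmap g n).hom ∘ (hmap f n).hom) := by
    have h2 := hgf n
    rw [hmap_comp] at h2
    exact h2
  exact (Function.Bijective.of_comp_iff' (hg n) _).1 h1

theorem AcyclicGrp.of_heqv {G K : Type} [Group G] [Group K] (f : G →* K) (hf : HEqv f)
    (hG : AcyclicGrp G) : AcyclicGrp K := by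
  intro n hn
  have := hG n hn
  exact (hf n).2.subsingleton

end Pool.Agent.H16.BV
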